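import Pool.Agent.helper26.Sz.C1sA
import Pool.Agent.helper62.Sz.G1

/-! Module SZ-C1s: chain map, inner part, all blocks but the first are single circles. -/

open scoped symmDiff

namespace Pool.Agent.helper20.Sz

namespace C1s
variable {X E : Type} [DecidableEq X] [Fintype E] [DecidableEq E] {K : Cube X E} {eta : X → Bool}

/-- `D_e` -/
noncomputable def De (K : Cube X E) (u : Finset X) (𝒟 : Finset (Finset E)) (e : X) : Finset E := by
  classical
  exact Finset.univ.filter fun z => lev 𝒟 z < lev 𝒟 (K.tail e) ∨ K.same (u.erase e) z (K.tail e)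

theorem mem_De {u : Finset X} {𝒟 : Finset (Finset E)} {e : X} {z : E} :
    z ∈ De K u 𝒟 e ↔ lev 𝒟 z < lev 𝒟 (K.tail e) ∨ K.same (u.erase e) z (K.tail e) := by
  classical
  unfold De
  simp

/-- condition for `e` on the right side -/
def Q1 (K : Cube X E) (v u : Finset X) (𝒟 : Finset (Finset E)) (e : X) : Prop :=
  K.Loop u e ∧ K.Spl v ((u \ v).erase e) ∧
    ∀ c ∈ (u \ v).erase e, lev 𝒟 (K.head c) < lev 𝒟 (K.tail c)

/-- condition for `e` on the left side -/
def Q3 (K : Cube X E) (v u : Finset X) (𝒟 : Finset (Finset E)) (e : X) : Prop :=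
  K.Loop u e ∧ K.Spl v ((u \ v).erase e) ∧
    ∀ c ∈ (u \ v).erase e, lev 𝒟 (K.head c) < lev 𝒟 (K.tail c) ∨
      (K.head c ∈ De K u 𝒟 e ∧ K.tail c ∉ De K u 𝒟 e)

/-- the partner relation -/
def Rel (K : Cube X E) (u : Finset X) (e g : X) : Prop :=
  K.same (u.erase e) (K.head g) (K.tail e) ∧ K.same (u.erase e) (K.tail g) (K.head e)

/-- the second sum on the left side: condition -/
def Cond (K : Cube X E) (P : E) (v u : Finset X) (s : E → Bool) (𝒟 : Finset (Finset E))
    (w : Finset X) (D : Finset E) : Prop :=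
  D ∉ 𝒟 ∧ B0 𝒟 ⊂ D ∧
        (∀ c ∈ u \ w, K.Nsep 𝒟 c ∧ K.tail c ∈ D ∧ K.head c ∉ D) ∧
        K.num u + (u \ w).card = K.num w ∧ K.Xi0 P v s w (insert D 𝒟)

theorem mem_B0 {𝒟 : Finset (Finset E)} {x : E} : x ∈ B0 𝒟 ↔ ∀ D ∈ 𝒟, x ∈ D := by
  unfold B0; simp

section main
variable (hK : K.IsCore) {P : E} {v u : Finset X} {s : E → Bool} {𝒟 : Finset (Finset E)}
  (hv : K.Valid u 𝒟) (hn : Nrm P 𝒟)
  (hsing : ∀ x y, s x = true → (∀ D ∈ 𝒟, (x ∈ D ↔ y ∈ D)) → K.same u x y)
  (hvu : v ⊆ u) (hfirst : ∀ x, s x = false ↔ ∀ D ∈ 𝒟, x ∈ D)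
  (hG : ∀ c ∈ u \ v, s (K.tail c) = true ∧ s (K.head c) = true)

include hv in
theorem lev_same {x y : E} (h : K.same u x y) : lev 𝒟 x = lev 𝒟 y :=
  (lev_eq hv.chain x y).2 fun D hD => hv.sat D hD x y h

include hv hsing in
theorem same_of_lev {x y : E} (hx : s x = true) (h : lev 𝒟 x = lev 𝒟 y) : K.same u x y :=
  hsing x y hx ((lev_eq hv.chain x y).1 h)

include hfirst in
theorem lev_pos {x : E} (hx : s x = true) : 0 < lev 𝒟 x := by
  rw [Nat.pos_iff_ne_zero]
  intro h
  have := (hfirst x).2 ((lev_zero x).1 h)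
  rw [hx] at this
  exact absurd this (by decide)

theorem sdiff_erase' {v u : Finset X} (hvu : v ⊆ u) {e : X} (he : e ∈ u \ v) :
    u.erase e \ v = (u \ v).erase e := by
  ext x; simp only [Finset.mem_sdiff, Finset.mem_erase]; tauto

theorem sdiff_erase'' {u : Finset X} {e : X} (he : e ∈ u) : u \ u.erase e = {e} := by
  ext x; simp only [Finset.mem_sdiff, Finset.mem_erase, Finset.mem_singleton]
  constructor
  · rintro ⟨h1, h2⟩; by_contra h'; exact h2 ⟨h', h1⟩
  · rintro rfl; exact ⟨he, fun h' => h'.1 rfl⟩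

theorem sdiff_single {u w : Finset X} (hw : w ⊆ u) {e : X} (h : u \ w = {e}) :
    w = u.erase e := by
  ext x
  have := Finset.ext_iff.1 h x
  simp only [Finset.mem_sdiff, Finset.mem_singleton] at this
  simp only [Finset.mem_erase]
  constructor
  · intro hx; exact ⟨fun h' => (this.2 h').2 hx, hw hx⟩
  · rintro ⟨h1, h2⟩; by_contra h3; exact h1 (this.1 ⟨h2, h3⟩)

theorem sd_sub {v w : Finset X} (h : v ⊆ w) : v ∆ (w \ v) = w := by
  ext x; simp only [Finset.mem_symmDiff, Finset.mem_sdiff]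
  constructor
  · rintro (⟨h1, _⟩ | ⟨h1, _⟩)
    · exact h h1
    · exact h1.1
  · intro hx
    by_cases h' : x ∈ v
    · exact Or.inl ⟨h', fun h2 => h2.2 h'⟩
    · exact Or.inr ⟨⟨hx, h'⟩, h'⟩

theorem sd_sub' {u w : Finset X} (h : w ⊆ u) : u ∆ (u \ w) = w := by
  have := sd_sub h
  conv_rhs => rw [← B1.sd_cancel w (u \ w), this]

/-- `v ∆ (G.erase e) = u.erase e` -/
theorem sd_erase2 (hvu : v ⊆ u) {e : X} (he : e ∈ u \ v) : v ∆ (u \ v).erase e = u.erase e := by
  have h1 : v ⊆ u.erase e := by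
    intro x hx
    refine Finset.mem_erase.2 ⟨?_, hvu hx⟩
    rintro rfl
    exact (Finset.mem_sdiff.1 he).2 hx
  rw [← sdiff_erase' hvu he, sd_sub h1]


include hK hv hn hsing hvu hfirst hG in
theorem cond_of_Q3 {e : X} (he : e ∈ u \ v) (hq : Q3 K v u 𝒟 e) :
    Cond K P v u s 𝒟 (u.erase e) (De K u 𝒟 e) := by
  have heu : e ∈ u := (Finset.mem_sdiff.1 he).1
  have hev : e ∉ v := (Finset.mem_sdiff.1 he).2
  obtain ⟨hl, hspl, hgd⟩ := hq
  have hch := hv.chain
  have hnl : ¬ K.Loop (u.erase e) e := by rw [erase_sd heu]; exact hK.split u e hl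
  have hlevE : lev 𝒟 (K.tail e) = lev 𝒟 (K.head e) := lev_same hv hl
  have hfin : ∀ x y, K.same (u.erase e) x y → K.same u x y := by
    intro x y hxy; rw [erase_sd heu] at hxy; exact B1.finer1 hK hl hxy
  have hpos : 0 < lev 𝒟 (K.tail e) := lev_pos hfirst (hG e he).1
  have htD : K.tail e ∈ De K u 𝒟 e := mem_De.2 (Or.inr (B1.refl hK _ _))
  have hhD : K.head e ∉ De K u 𝒟 e := by
    rw [mem_De]
    rintro (h | h)
    · omega
    · exact hnl (B1.symm hK h)
  have hB0 : ∀ x, (∀ D ∈ 𝒟, x ∈ D) → x ∈ De K u 𝒟 e := by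
    intro x hx
    rw [mem_De, (lev_zero x).2 hx]; exact Or.inl hpos
  refine ⟨?_, ?_, ?_, ?_, ⟨?_, ⟨?_, ?_, ?_, ?_⟩, ?_, ?_, ?_, ?_, ?_, ?_⟩⟩
  · intro hD
    exact hhD (((lev_eq hch _ _).1 hlevE _ hD).1 htD)
  · refine Finset.ssubset_iff_of_subset (fun x hx => hB0 x (mem_B0.1 hx)) |>.2
      ⟨K.tail e, htD, ?_⟩
    intro h
    have := (lev_zero (𝒟 := 𝒟) (K.tail e)).2 (mem_B0.1 h)
    omega
  · intro c hc
    rw [sdiff_erase'' heu, Finset.mem_singleton] at hc
    subst hc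
    exact ⟨(lev_eq hch _ _).1 hlevE, htD, hhD⟩
  · rw [sdiff_erase'' heu, erase_sd heu, B1.num_flip_loop hK hl]; simp
  · intro x hx
    refine Finset.mem_erase.2 ⟨?_, hvu hx⟩
    rintro rfl; exact hev hx
  · intro D hD
    rcases Finset.mem_insert.1 hD with rfl | hD
    · exact ⟨_, htD⟩
    · exact hv.ne D hD
  · intro D hD
    rcases Finset.mem_insert.1 hD with rfl | hD
    · intro h; rw [h] at hhD; exact hhD (Finset.mem_univ _)
    · exact hv.top D hD
  · intro D hD x y hxy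
    rcases Finset.mem_insert.1 hD with rfl | hD
    · rw [mem_De, mem_De, lev_same hv (hfin x y hxy)]
      constructor
      · rintro (h | h)
        · exact Or.inl h
        · exact Or.inr (B1.trans hK (B1.symm hK hxy) h)
      · rintro (h | h)
        · exact Or.inl h
        · exact Or.inr (B1.trans hK hxy h)
    · exact hv.sat D hD x y (hfin x y hxy)
  · have key : ∀ D ∈ 𝒟, D ⊆ De K u 𝒟 e ∨ De K u 𝒟 e ⊆ D := by
      intro D hD
      by_cases h : K.tail e ∈ D
      · right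
        intro x hx
        rcases mem_De.1 hx with h1 | h1
        · obtain ⟨D', hD', h2, h3⟩ := (lev_lt hch _ _).1 h1
          rcases hch D hD D' hD' with h4 | h4
          · exact absurd (h4 h) h3
          · exact h4 h2
        · exact (hv.sat D hD _ _ (hfin _ _ h1)).2 h
      · left
        intro x hx
        exact mem_De.2 (Or.inl ((lev_lt hch _ _).2 ⟨D, hD, hx, h⟩))
    intro D hD D' hD'
    rcases Finset.mem_insert.1 hD with rfl | hD <;> rcases Finset.mem_insert.1 hD' with rfl | hD'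
    · exact Or.inl subset_rfl
    · exact (key D' hD').symm
    · exact key D hD
    · exact hch D hD D' hD'
  · intro D hD
    rcases Finset.mem_insert.1 hD with rfl | hD
    · exact hB0 P hn
    · exact hn D hD
  · intro x
    rw [hfirst x]
    constructor
    · intro h D hD
      rcases Finset.mem_insert.1 hD with rfl | hD
      · exact hB0 x h
      · exact h D hD
    · intro h D hD
      exact h D (Finset.mem_insert_of_mem hD)
  · intro x y hx h
    have h1 : K.same u x y := hsing x y hx fun D hD => h D (Finset.mem_insert_of_mem hD)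
    have h2 := h _ (Finset.mem_insert_self _ _)
    have h3 := hK.merge (u.erase e) e hnl x y
    have h4 : (u.erase e) ∆ {e} = u := by rw [erase_sd heu, B1.sd_cancel]
    rw [h4] at h3
    rcases h3.1 h1 with h5 | ⟨h5, h6⟩ | ⟨h5, h6⟩
    · exact h5
    · exfalso
      have h7 : x ∈ De K u 𝒟 e := mem_De.2 (Or.inr h5)
      rcases mem_De.1 (h2.1 h7) with h8 | h8
      · rw [← lev_same hv (hfin _ _ h6)] at h8; omega
      · exact hnl (B1.symm hK (B1.trans hK h6 h8))
    · exfalso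
      have h7 : y ∈ De K u 𝒟 e := mem_De.2 (Or.inr (B1.symm hK h6))
      rcases mem_De.1 (h2.2 h7) with h8 | h8
      · rw [lev_same hv (hfin _ _ h5)] at h8; omega
      · exact hnl (B1.symm hK (B1.trans hK (B1.symm hK h5) h8))
  · rw [sdiff_erase' hvu he]; exact hspl
  · intro c hc
    rw [sdiff_erase' hvu he] at hc
    exact hG c (Finset.mem_of_mem_erase hc)
  · intro c hc
    rw [sdiff_erase' hvu he] at hc
    rcases hgd c hc with h | ⟨h1, h2⟩
    · obtain ⟨D, hD, h1, h2⟩ := (lev_lt hch _ _).1 h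
      exact ⟨D, Finset.mem_insert_of_mem hD, h1, h2⟩
    · exact ⟨_, Finset.mem_insert_self _ _, h1, h2⟩

include hK hv hsing hfirst hG in
theorem Q3_of_cond {w : Finset X} (hw : w ⊆ u) {D : Finset E} (h : Cond K P v u s 𝒟 w D) :
    ∃ e ∈ u \ v, Q3 K v u 𝒟 e ∧ w = u.erase e ∧ D = De K u 𝒟 e := by
  obtain ⟨hD, hB, hc, hnum, hX⟩ := h
  have hch := hv.chain
  have hcD : ∀ D' ∈ 𝒟, D' ⊆ D ∨ D ⊆ D' := fun D' hD' =>
    hX.valid.chain D' (Finset.mem_insert_of_mem hD') D (Finset.mem_insert_self _ _)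
  have hvw := hX.sub
  have hsub : ∀ c ∈ u \ w, c ∈ u \ v := fun c hc =>
    Finset.sdiff_subset_sdiff subset_rfl hvw hc
  obtain ⟨x, hx, y, hy, hxy⟩ := cut hch hD (hX.valid.ne D (Finset.mem_insert_self _ _))
    (hX.valid.top D (Finset.mem_insert_self _ _)) hcD
  have hsx : s x = true := by
    by_contra h
    have h1 : s x = false := by simpa using h
    have h2 := (lev_zero x).2 ((hfirst x).1 h1)
    rw [hxy] at h2
    exact hy (hB.1 (mem_B0.2 ((lev_zero y).1 h2)))
  have hsame : K.same u x y := same_of_lev hv hsing hsx hxy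
  have hne : (u \ w).Nonempty := by
    rw [Finset.nonempty_iff_ne_empty]
    intro h0
    have : w = u := Finset.Subset.antisymm hw (Finset.sdiff_eq_empty_iff_subset.1 h0)
    rw [this] at hX
    exact hy ((hX.valid.sat D (Finset.mem_insert_self _ _) x y hsame).1 hx)
  obtain ⟨e, he⟩ := hne
  have heu : e ∈ u := (Finset.mem_sdiff.1 he).1
  have hw' : w ∆ (u \ w) = u := sd_sub hw
  have hM : K.Mrg w (u \ w) := by unfold Cube.Mrg; rw [hw']; exact hnum
  -- levels of the arcs in `u \ w`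
  have hlev : ∀ c ∈ u \ w, ∀ c' ∈ u \ w, ¬ lev 𝒟 (K.tail c) < lev 𝒟 (K.tail c') := by
    intro c hc1 c' hc2 hlt
    obtain ⟨D', hD', h1, h2⟩ := (lev_lt hch _ _).1 hlt
    rcases hcD D' hD' with h3 | h3
    · exact (hc c hc1).2.2 (h3 (((hc c hc1).1 D' hD').1 h1))
    · exact h2 (h3 (hc c' hc2).2.1)
  have hsingle : u \ w = {e} := by
    refine Finset.eq_singleton_iff_unique_mem.2 ⟨he, fun e' he' => ?_⟩
    by_contra hne
    have h1 : lev 𝒟 (K.tail e) = lev 𝒟 (K.tail e') := by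
      have := hlev e he e' he'; have := hlev e' he' e he; omega
    have h2 : K.same w (K.tail e) (K.tail e') := by
      refine hX.single _ _ (hG e (hsub e he)).1 fun D' hD' => ?_
      rcases Finset.mem_insert.1 hD' with rfl | hD'
      · exact iff_of_true (hc e he).2.1 (hc e' he').2.1
      · exact (lev_eq hch _ _).1 h1 D' hD'
    have h3 : K.same w (K.head e) (K.head e') := by
      refine hX.single _ _ (hG e (hsub e he)).2 fun D' hD' => ?_
      rcases Finset.mem_insert.1 hD' with rfl | hD'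
      · exact iff_of_false (hc e he).2.2 (hc e' he').2.2
      · rw [← (hc e he).1 D' hD', ← (hc e' he').1 D' hD']
        exact (lev_eq hch _ _).1 h1 D' hD'
    have h4 := (B1.mrg_iff hK (H := {e}) (G := u \ w) (by simpa using he)).1 hM
    have h5 := (B1.mrg_loop hK h4.2 e' (by simp [Finset.mem_sdiff.1 he', hne])).1
    apply h5
    exact (hK.merge w e (B1.mrg_single hK |>.1 h4.1) _ _).2
      (Or.inr (Or.inl ⟨B1.symm hK h2, h3⟩))
  have hwe : w = u.erase e := sdiff_single hw hsingle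
  have heG : e ∈ u \ v := hsub e he
  have hlevE : lev 𝒟 (K.tail e) = lev 𝒟 (K.head e) := (lev_eq hch _ _).2 (hc e he).1
  have hl : K.Loop u e := same_of_lev hv hsing (hG e heG).1 hlevE
  have hDe : D = De K u 𝒟 e := by
    ext z
    rw [mem_De, ← hwe]
    constructor
    · intro hz
      rcases lt_trichotomy (lev 𝒟 z) (lev 𝒟 (K.tail e)) with h | h | h
      · exact Or.inl h
      · right
        refine B1.symm hK (hX.single _ _ (hG e heG).1 fun D' hD' => ?_)
        rcases Finset.mem_insert.1 hD' with rfl | hD'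
        · exact iff_of_true (hc e he).2.1 hz
        · exact (lev_eq hch _ _).1 h.symm D' hD'
      · exfalso
        obtain ⟨D', hD', h1, h2⟩ := (lev_lt hch _ _).1 h
        rcases hcD D' hD' with h3 | h3
        · exact (hc e he).2.2 (h3 (((hc e he).1 D' hD').1 h1))
        · exact h2 (h3 hz)
    · rintro (h | h)
      · obtain ⟨D', hD', h1, h2⟩ := (lev_lt hch _ _).1 h
        rcases hcD D' hD' with h3 | h3
        · exact h3 h1
        · exact absurd (h3 (hc e he).2.1) h2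
      · exact (hX.valid.sat D (Finset.mem_insert_self _ _) _ _ h).2 (hc e he).2.1
  refine ⟨e, heG, ⟨hl, ?_, ?_⟩, hwe, hDe⟩
  · have := hX.spl
    rwa [hwe, sdiff_erase' (hvw.trans hw) heG] at this
  · intro c hc'
    rw [← sdiff_erase' (hvw.trans hw) heG, ← hwe] at hc'
    obtain ⟨D', hD', h1, h2⟩ := hX.ord c hc'
    rcases Finset.mem_insert.1 hD' with rfl | hD'
    · right; rw [← hDe]; exact ⟨h1, h2⟩
    · left; exact (lev_lt hch _ _).2 ⟨D', hD', h1, h2⟩


theorem erase_sdiff_erase {G : Finset X} {e g : X} (he : e ∈ G) (hne : e ≠ g) :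
    G.erase g \ (G.erase e).erase g = {e} := by
  ext x
  simp only [Finset.mem_sdiff, Finset.mem_erase, Finset.mem_singleton]
  constructor
  · rintro ⟨⟨h1, h2⟩, h3⟩
    by_contra h4
    exact h3 ⟨h1, h4, h2⟩
  · rintro rfl
    exact ⟨⟨hne, he⟩, fun h => h.2.1 rfl⟩

include hK hv hsing hvu hG in
theorem rel_of {e : X} (he : e ∈ u \ v) (hq : Q3 K v u 𝒟 e) {g : X}
    (hg : g ∈ (u \ v).erase e) (hng : ¬ lev 𝒟 (K.head g) < lev 𝒟 (K.tail g)) :
    Rel K u e g ∧ lev 𝒟 (K.tail g) = lev 𝒟 (K.tail e) ∧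
      lev 𝒟 (K.head g) = lev 𝒟 (K.tail e) := by
  have heu : e ∈ u := (Finset.mem_sdiff.1 he).1
  obtain ⟨hl, hspl, hgd⟩ := hq
  have hnl : ¬ K.Loop (u.erase e) e := by rw [erase_sd heu]; exact hK.split u e hl
  have hfin : ∀ x y, K.same (u.erase e) x y → K.same u x y := by
    intro x y hxy; rw [erase_sd heu] at hxy; exact B1.finer1 hK hl hxy
  rcases hgd g hg with h | ⟨h1, h2⟩
  · exact absurd h hng
  rw [mem_De] at h1 h2
  push Not at h2
  have h3 : K.same (u.erase e) (K.head g) (K.tail e) := by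
    rcases h1 with h1 | h1
    · omega
    · exact h1
  have h4 : lev 𝒟 (K.head g) = lev 𝒟 (K.tail e) := lev_same hv (hfin _ _ h3)
  have h5 : lev 𝒟 (K.tail g) = lev 𝒟 (K.tail e) := by omega
  have h6 : K.same u (K.tail g) (K.tail e) :=
    same_of_lev hv hsing (hG g (Finset.mem_of_mem_erase hg)).1 h5
  have h7 := hK.merge (u.erase e) e hnl (K.tail g) (K.tail e)
  have h8 : (u.erase e) ∆ {e} = u := by rw [erase_sd heu, B1.sd_cancel]
  rw [h8] at h7
  refine ⟨⟨h3, ?_⟩, h5, h4⟩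
  rcases h7.1 h6 with h9 | ⟨h9, _⟩ | ⟨h9, _⟩
  · exact absurd h9 h2.2
  · exact absurd h9 h2.2
  · exact h9

include hK hvu in
theorem rel_uniq {e : X} (he : e ∈ u \ v) (hspl : K.Spl v ((u \ v).erase e)) {g g' : X}
    (hg : g ∈ (u \ v).erase e) (hg' : g' ∈ (u \ v).erase e) (h1 : Rel K u e g)
    (h2 : Rel K u e g') : g' = g := by
  by_contra hne
  have hM : K.Mrg (u.erase e) ((u \ v).erase e) := by
    have h := hspl
    unfold Cube.Spl at h
    unfold Cube.Mrg
    rw [sd_erase2 hvu he] at h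
    rw [← sd_erase2 hvu he, B1.sd_cancel, sd_erase2 hvu he, h]
  have h4 := (B1.mrg_iff hK (H := {g}) (G := (u \ v).erase e) (by simpa using hg)).1 hM
  have h5 := (B1.mrg_loop hK h4.2 g' (by
    rw [Finset.mem_sdiff]; exact ⟨hg', by simpa using hne⟩)).1
  apply h5
  exact (hK.merge _ g (B1.mrg_single hK |>.1 h4.1) _ _).2
    (Or.inr (Or.inl ⟨B1.trans hK h2.2 (B1.symm hK h1.2),
      B1.trans hK h1.1 (B1.symm hK h2.1)⟩))

include hK hvu in
theorem rel_part {s0 : Bool} (hC : K.CrsP s0) {e : X} (he : e ∈ u \ v)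
    (hl : K.Loop u e) (hspl : K.Spl v ((u \ v).erase e)) {g : X}
    (hg : g ∈ (u \ v).erase e) (hrel : Rel K u e g) :
    Rel K u g e ∧ K.Loop u g ∧ K.Spl v ((u \ v).erase g) := by
  have heu : e ∈ u := (Finset.mem_sdiff.1 he).1
  have hgG : g ∈ u \ v := Finset.mem_of_mem_erase hg
  have hgu : g ∈ u := (Finset.mem_sdiff.1 hgG).1
  have hge : g ≠ e := Finset.ne_of_mem_erase hg
  have hnl : ¬ K.Loop (u.erase e) e := by rw [erase_sd heu]; exact hK.split u e hl
  have hwu : (u.erase e) ∆ {e} = u := by rw [erase_sd heu, B1.sd_cancel]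
  have hng : ¬ K.Loop (u.erase e) g := by
    have := (B1.spl_loop hK hspl g hg).2
    rwa [sd_erase2 hvu he] at this
  have hlg : K.Loop u g := by
    have h := hK.merge (u.erase e) e hnl (K.tail g) (K.head g)
    rw [hwu] at h
    exact h.2 (Or.inr (Or.inr ⟨hrel.2, B1.symm hK hrel.1⟩))
  -- u0
  have h0 : (u.erase e).erase g = (u.erase e) ∆ {g} :=
    erase_sd (Finset.mem_erase.2 ⟨hge, hgu⟩)
  have h0' : (u.erase e).erase g = (u.erase g) ∆ {e} := by
    rw [Finset.erase_right_comm]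
    exact erase_sd (Finset.mem_erase.2 ⟨hge.symm, heu⟩)
  have hl0e : K.Loop ((u.erase e).erase g) e := by
    rw [h0]
    exact (hK.merge (u.erase e) g hng (K.tail e) (K.head e)).2
      (Or.inr (Or.inr ⟨B1.symm hK hrel.1, hrel.2⟩))
  have hl0g : K.Loop ((u.erase e).erase g) g := by
    rw [h0]; exact B1.loop_of_nonloop hK hng
  have hng' : ¬ K.Loop (u.erase g) g := by rw [erase_sd hgu]; exact hK.split u g hlg
  have h0e : ((u.erase e).erase g) ∆ {e} = u.erase g := by rw [h0', B1.sd_cancel]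
  have h0g : ((u.erase e).erase g) ∆ {g} = u.erase e := by rw [h0, B1.sd_cancel]
  have hne' : ¬ K.Loop (u.erase g) e := by
    rw [← h0e]; exact hK.split _ e hl0e
  have hj := B1.join_of_loop hK hne' hng' (by rw [← h0']; exact hl0g)
  refine ⟨?_, hlg, ?_⟩
  · rcases hj with ⟨h1, h2⟩ | ⟨h1, h2⟩
    · exfalso
      have hn1 : ¬ K.same (u.erase e) (K.tail e) (K.tail g) := fun h =>
        hnl (B1.trans hK h hrel.2)
      have hm1 : e ∉ (u.erase e).erase g := fun h =>
        (Finset.mem_erase.1 (Finset.mem_of_mem_erase h)).1 rfl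
      have hm2 : g ∉ (u.erase e).erase g := Finset.notMem_erase _ _
      cases s0 with
      | true =>
        have hc : K.Crs true ((u.erase e).erase g) g e := by
          refine ⟨hl0g, hl0e, ?_, ?_⟩
          · rw [h0e]; exact hng'
          · rw [h0e]; exact iff_of_true h1 rfl
        have hc' := (hC _ g e (iff_of_false hm2 hm1) hc).2.2.2
        rw [h0g] at hc'
        exact hn1 (hc'.2 rfl)
      | false =>
        have hc : K.Crs false ((u.erase e).erase g) e g := by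
          refine ⟨hl0e, hl0g, ?_, ?_⟩
          · rw [h0g]; exact hnl
          · rw [h0g]; exact iff_of_false hn1 (by decide)
        have hc' := (hC _ e g (iff_of_false hm1 hm2) hc).2.2.2
        rw [h0e] at hc'
        exact absurd (hc'.1 h1) (by decide)
    · exact ⟨B1.symm hK h1, B1.symm hK h2⟩
  · have h1 := (B1.spl_iff hK (H := ((u \ v).erase e).erase g) (G := (u \ v).erase e)
      (Finset.erase_subset _ _)).1 hspl
    have h2 : ((u \ v).erase e).erase g ⊆ (u \ v).erase g := by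
      intro x hx
      simp only [Finset.mem_erase] at hx ⊢
      exact ⟨hx.1, hx.2.2⟩
    refine (B1.spl_iff hK h2).2 ⟨h1.1, ?_⟩
    rw [erase_sdiff_erase he hge.symm, B1.spl_single hK]
    have h3 : v ∆ ((u \ v).erase e).erase g = (u.erase e).erase g := by
      rw [sd_erase v hg, sd_erase2 hvu he, h0]
    rw [h3]; exact hl0e

include hK hv hsing hvu hG in
open Classical in
theorem sum_Q {s0 : Bool} (hC : K.CrsP s0) :
    (∑ e ∈ u \ v, if Q3 K v u 𝒟 e then (1 : ZMod 2) else 0) =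
    ∑ e ∈ u \ v, if Q1 K v u 𝒟 e then (1 : ZMod 2) else 0 := by
  have h13 : ∀ e, Q1 K v u 𝒟 e → Q3 K v u 𝒟 e := fun e h =>
    ⟨h.1, h.2.1, fun c hc => Or.inl (h.2.2 c hc)⟩
  have hsplit : (∑ e ∈ u \ v, if Q3 K v u 𝒟 e then (1 : ZMod 2) else 0) =
      (∑ e ∈ u \ v, if Q1 K v u 𝒟 e then (1 : ZMod 2) else 0) +
      ∑ e ∈ u \ v, if (Q3 K v u 𝒟 e ∧ ¬ Q1 K v u 𝒟 e) then (1 : ZMod 2) else 0 := by
    rw [← Finset.sum_add_distrib]
    refine Finset.sum_congr rfl fun e _ => ?_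
    by_cases h1 : Q1 K v u 𝒟 e
    · simp [h1, h13 e h1]
    · by_cases h3 : Q3 K v u 𝒟 e <;> simp [h1, h3]
  have hzero : (∑ e ∈ u \ v, if (Q3 K v u 𝒟 e ∧ ¬ Q1 K v u 𝒟 e) then (1 : ZMod 2) else 0) = 0 := by
    rw [← Finset.sum_filter]
    have hmem : ∀ e, e ∈ (u \ v).filter (fun e => Q3 K v u 𝒟 e ∧ ¬ Q1 K v u 𝒟 e) ↔
        e ∈ u \ v ∧ Q3 K v u 𝒟 e ∧ ¬ Q1 K v u 𝒟 e := fun e => by
      rw [Finset.mem_filter]
    refine parity _ (fun e g => g ≠ e ∧ Rel K u e g) ?_ ?_ ?_
    · rintro e he g hg ⟨h1, h2⟩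
      rw [hmem] at he hg
      exact ⟨h1.symm, (rel_part hK hvu hC he.1 he.2.1.1 he.2.1.2.1
        (Finset.mem_erase.2 ⟨h1, hg.1⟩) h2).1⟩
    · intro e he
      rw [hmem] at he
      obtain ⟨heG, hq3, hq1⟩ := he
      have hex : ∃ g ∈ (u \ v).erase e, ¬ lev 𝒟 (K.head g) < lev 𝒟 (K.tail g) := by
        by_contra hno
        push Not at hno
        exact hq1 ⟨hq3.1, hq3.2.1, hno⟩
      obtain ⟨g, hg, hng⟩ := hex
      obtain ⟨hrel, hlt, hlh⟩ := rel_of hK hv hsing hvu hG heG hq3 hg hng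
      obtain ⟨hrel', hlg, hsplg⟩ := rel_part hK hvu hC heG hq3.1 hq3.2.1 hg hrel
      have hgG : g ∈ u \ v := Finset.mem_of_mem_erase hg
      have hge : g ≠ e := Finset.ne_of_mem_erase hg
      have hgu : g ∈ u := (Finset.mem_sdiff.1 hgG).1
      have hlevE : lev 𝒟 (K.tail e) = lev 𝒟 (K.head e) := lev_same hv hq3.1
      refine ⟨g, (hmem g).2 ⟨hgG, ⟨hlg, hsplg, ?_⟩, ?_⟩, hge, hge, hrel⟩
      · intro c hc
        by_cases hce : c = e
        · subst hce
          right
          rw [mem_De, mem_De]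
          refine ⟨Or.inr hrel'.1, ?_⟩
          rintro (h | h)
          · omega
          · have hng' : ¬ K.Loop (u.erase g) g := by rw [erase_sd hgu]; exact hK.split u g hlg
            exact hng' (B1.trans hK (B1.symm hK h) hrel'.2)
        · left
          by_contra hcn
          have hc' : c ∈ (u \ v).erase e :=
            Finset.mem_erase.2 ⟨hce, Finset.mem_of_mem_erase hc⟩
          have hr := (rel_of hK hv hsing hvu hG heG hq3 hc' hcn).1
          exact (Finset.ne_of_mem_erase hc) (rel_uniq hK hvu heG hq3.2.1 hg hc' hrel hr)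
      · rintro ⟨_, _, h⟩
        have := h e (Finset.mem_erase.2 ⟨hge.symm, heG⟩)
        omega
    · rintro e he g hg g' hg' h1 h2 ⟨_, h3⟩ ⟨_, h4⟩
      rw [hmem] at he hg hg'
      exact (rel_uniq hK hvu he.1 he.2.1.2.1 (Finset.mem_erase.2 ⟨h1, hg.1⟩)
        (Finset.mem_erase.2 ⟨h2, hg'.1⟩) h3 h4).symm
  rw [hsplit, hzero, add_zero]

include hK hv hn hsing hvu hfirst hG in
open Classical in
/-- the second sum on the left side -/
theorem sum_cond :
    (∑ w ∈ u.powerset, ∑ D : Finset E, if Cond K P v u s 𝒟 w D then (1 : ZMod 2) else 0) =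
    ∑ e ∈ u \ v, if Q3 K v u 𝒟 e then (1 : ZMod 2) else 0 := by
  rw [← Finset.sum_product', ← Finset.sum_filter, ← Finset.sum_filter]
  symm
  refine Finset.sum_bij (fun e _ => (u.erase e, De K u 𝒟 e)) ?_ ?_ ?_ (fun _ _ => rfl)
  · intro e he
    simp only [Finset.mem_filter, Finset.mem_product, Finset.mem_powerset, Finset.mem_univ,
      and_true] at he ⊢
    exact ⟨Finset.erase_subset _ _, cond_of_Q3 hK hv hn hsing hvu hfirst hG he.1 he.2⟩
  · intro e he e' he' h
    simp only [Finset.mem_filter] at he he'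
    have h1 : u.erase e = u.erase e' := (Prod.ext_iff.1 h).1
    by_contra hne
    have h2 : e ∈ u.erase e' := Finset.mem_erase.2 ⟨hne, (Finset.mem_sdiff.1 he.1).1⟩
    rw [← h1] at h2
    exact Finset.notMem_erase _ _ h2
  · rintro ⟨w, D⟩ h
    simp only [Finset.mem_filter, Finset.mem_product, Finset.mem_powerset, Finset.mem_univ,
      and_true] at h
    obtain ⟨e, he, hq, h1, h2⟩ := Q3_of_cond hK hv hsing hfirst hG h.1 h.2
    exact ⟨e, Finset.mem_filter.2 ⟨he, hq⟩, by rw [h1, h2]⟩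


/-- the terms of the right side of the counting identity, as a function of `w` -/
def TT (K : Cube X E) (s0 : Bool) (v u : Finset X) (𝒟 : Finset (Finset E)) (w : Finset X) : Prop :=
  v ⊆ w ∧ K.AC s0 w (u \ w) ∧ (∀ c ∈ w \ v, lev 𝒟 (K.head c) < lev 𝒟 (K.tail c)) ∧
    (∀ c ∈ u \ w, lev 𝒟 (K.tail c) = lev 𝒟 (K.head c)) ∧ K.Spl v (w \ v)

include hK hv hn hsing hvu hfirst hG in
/-- the first sum on the left side -/
theorem first_iff {s0 : Bool} (hN : K.NumP s0) {w : Finset X} (hw : w ⊆ u) :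
    ((∀ c ∈ u \ w, K.Nsep 𝒟 c ∧ s (K.tail c) = true) ∧
        K.AC s0 u (u \ w) ∧ K.Xi0 P v s w 𝒟) ↔ TT K s0 v u 𝒟 w ∧ (u \ w).card ≠ 1 := by
  have hch := hv.chain
  have h1 : u ∆ (u \ w) = w := sd_sub' hw
  have h2 : w ∆ (u \ w) = u := sd_sub hw
  constructor
  · rintro ⟨hc, hA, hX⟩
    have hlu : ∀ c ∈ u \ w, K.Loop u c := fun c hc' => hsing _ _ (hc c hc').2 (hc c hc').1
    have hlw : ∀ c ∈ u \ w, K.Loop (u ∆ (u \ w)) c := fun c hc' => by
      rw [h1]; exact hX.single _ _ (hc c hc').2 (hc c hc').1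
    have hH : Hom u (u \ w) := fun a ha b hb =>
      iff_of_true (Finset.mem_sdiff.1 ha).1 (Finset.mem_sdiff.1 hb).1
    rcases two hK hN hH hA hlw with ⟨e, he, hne⟩ | ⟨l, r, hlr, hE, hcr⟩
    · exact absurd (hlu e (by rw [he]; simp)) hne
    · refine ⟨⟨hX.sub, ?_, ?_, ?_, hX.spl⟩, ?_⟩
      · have := crs_flip hK hlr hcr
        rw [← hE, h1] at this
        rw [hE, Finset.pair_comm]
        exact Or.inr (bun_pair hlr.symm this)
      · intro c hc'
        exact (lev_lt hch _ _).2 (hX.ord c hc')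
      · intro c hc'
        exact (lev_eq hch _ _).2 (hc c hc').1
      · rw [hE, Finset.card_pair hlr]; decide
  · rintro ⟨⟨hvw, hA, hgd, heq, hspl⟩, hcard⟩
    have hsub : ∀ c ∈ u \ w, c ∈ u \ v := fun c hc =>
      Finset.sdiff_subset_sdiff subset_rfl hvw hc
    have hsub' : ∀ c ∈ w \ v, c ∈ u \ v := fun c hc =>
      Finset.sdiff_subset_sdiff hw subset_rfl hc
    have hlu : ∀ c ∈ u \ w, K.Loop u c := fun c hc' =>
      same_of_lev hv hsing (hG c (hsub c hc')).1 (heq c hc')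
    have hH : Hom w (u \ w) := fun a ha b hb =>
      iff_of_false (Finset.mem_sdiff.1 ha).2 (Finset.mem_sdiff.1 hb).2
    rcases two hK hN hH hA (by rw [h2]; exact hlu) with ⟨e, he, hne⟩ | ⟨l, r, hlr, hE, hcr⟩
    · exact absurd (by rw [he]; simp) hcard
    · have hsm := same_crs hK hlr hcr
      rw [← hE, h2] at hsm
      refine ⟨fun c hc' => ⟨(lev_eq hch _ _).1 (heq c hc'), (hG c (hsub c hc')).1⟩, ?_,
        ⟨hvw, ⟨hv.ne, hv.top, fun D hD x y hxy => hv.sat D hD x y ((hsm x y).2 hxy), hch⟩, hn,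
          hfirst, fun x y hx h => (hsm x y).1 (hsing x y hx h), hspl, fun c hc' => hG c (hsub' c hc'),
          fun c hc' => (lev_lt hch _ _).1 (hgd c hc')⟩⟩
      have := crs_flip hK hlr hcr
      rw [← hE, h2] at this
      rw [hE, Finset.pair_comm]
      exact Or.inr (bun_pair hlr.symm this)

include hK hv hsing hvu hG in
open Classical in
theorem sum_T1 {s0 : Bool} :
    (∑ w ∈ u.powerset, if TT K s0 v u 𝒟 w ∧ (u \ w).card = 1 then (1 : ZMod 2) else 0) =
    ∑ e ∈ u \ v, if Q1 K v u 𝒟 e then (1 : ZMod 2) else 0 := by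
  rw [← Finset.sum_filter, ← Finset.sum_filter]
  symm
  refine Finset.sum_bij (fun e _ => u.erase e) ?_ ?_ ?_ (fun _ _ => rfl)
  · intro e he
    simp only [Finset.mem_filter, Finset.mem_powerset] at he ⊢
    obtain ⟨he, hl, hspl, hgd⟩ := he
    have heu : e ∈ u := (Finset.mem_sdiff.1 he).1
    have hev : e ∉ v := (Finset.mem_sdiff.1 he).2
    have hnl : ¬ K.Loop (u.erase e) e := by rw [erase_sd heu]; exact hK.split u e hl
    refine ⟨Finset.erase_subset _ _, ⟨?_, ?_, ?_, ?_, ?_⟩, ?_⟩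
    · intro x hx
      refine Finset.mem_erase.2 ⟨?_, hvu hx⟩
      rintro rfl; exact hev hx
    · left
      rw [sdiff_erase'' heu]
      refine ⟨by simp, K.tail e, K.head e, hnl, fun g hg => ?_⟩
      rw [Finset.mem_singleton] at hg; subst hg
      exact ⟨B1.refl hK _ _, B1.refl hK _ _⟩
    · intro c hc; rw [sdiff_erase' hvu he] at hc; exact hgd c hc
    · intro c hc; rw [sdiff_erase'' heu, Finset.mem_singleton] at hc; subst hc
      exact lev_same hv hl
    · rw [sdiff_erase' hvu he]; exact hspl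
    · rw [sdiff_erase'' heu]; simp
  · intro e he e' he' h1
    simp only [Finset.mem_filter] at he he'
    by_contra hne
    have h2 : e ∈ u.erase e' := Finset.mem_erase.2 ⟨hne, (Finset.mem_sdiff.1 he.1).1⟩
    rw [← h1] at h2
    exact Finset.notMem_erase _ _ h2
  · intro w hw
    simp only [Finset.mem_filter, Finset.mem_powerset] at hw
    obtain ⟨hwu, ⟨hvw, hA, hgd, heq, hspl⟩, hcard⟩ := hw
    obtain ⟨e, he⟩ := Finset.card_eq_one.1 hcard
    have hwe := sdiff_single hwu he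
    have heG : e ∈ u \ v := Finset.sdiff_subset_sdiff subset_rfl hvw (by rw [he]; simp)
    refine ⟨e, Finset.mem_filter.2 ⟨heG, ?_, ?_, ?_⟩, hwe.symm⟩
    · exact same_of_lev hv hsing (hG e heG).1 (heq e (by rw [he]; simp))
    · rwa [hwe, sdiff_erase' hvu heG] at hspl
    · rwa [hwe, sdiff_erase' hvu heG] at hgd

include hv hn hsing hvu hfirst hG in
open Classical in
theorem sum_rhs {s0 : Bool} (hGI : K.GIP s0) (hs : ∀ x y, K.same v x y → s x = s y) :
    (∑ w ∈ u.powerset, if v ⊆ w ∧ K.AC s0 v (w \ v) ∧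
        (∀ c ∈ w \ v, s (K.tail c) = true ∧ s (K.head c) = true) ∧
        K.Xi0 P w s u 𝒟 then (1 : ZMod 2) else 0) =
    ∑ w ∈ u.powerset, if TT K s0 v u 𝒟 w then (1 : ZMod 2) else 0 := by
  have hch := hv.chain
  have hvG : v ∆ (u \ v) = u := sd_sub hvu
  have h0 := hGI v (u \ v) (lev 𝒟) (fun a ha b hb =>
    iff_of_false (Finset.mem_sdiff.1 ha).2 (Finset.mem_sdiff.1 hb).2)
    (by rw [hvG]; exact fun x y h => lev_same hv h)
  have e1 := sum_up hvu (fun w => v ⊆ w ∧ K.AC s0 v (w \ v) ∧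
        (∀ c ∈ w \ v, s (K.tail c) = true ∧ s (K.head c) = true) ∧
        K.Xi0 P w s u 𝒟) (fun w h => h.1)
  have e2 := sum_down hvu (TT K s0 v u 𝒟) (fun w h => h.1)
  rw [e2]
  refine e1.trans ?_
  refine Eq.trans (Eq.trans (Finset.sum_congr rfl fun A hA => ?_) h0)
    (Finset.sum_congr rfl fun A hA => ?_)
  · rw [Finset.mem_powerset] at hA
    have hvA : (v ∪ A) \ v = A := by
      ext x; simp only [Finset.mem_sdiff, Finset.mem_union]
      constructor
      · rintro ⟨h1 | h1, h2⟩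
        · exact absurd h1 h2
        · exact h1
      · intro h; exact ⟨Or.inr h, (Finset.mem_sdiff.1 (hA h)).2⟩
    have hvA' : v ∆ A = v ∪ A := by
      have := sd_sub (v := v) (w := v ∪ A) Finset.subset_union_left
      rwa [hvA] at this
    have huA : u \ (v ∪ A) = (u \ v) \ A := by
      ext x; simp only [Finset.mem_sdiff, Finset.mem_union]; tauto
    rw [hvA, hvA']
    refine if_congr ⟨?_, ?_⟩ rfl rfl
    · rintro ⟨_, h1, _, h2⟩
      refine ⟨h1, fun c hc => ?_, ?_⟩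
      · rw [← huA] at hc
        exact (lev_lt hch _ _).2 (h2.ord c hc)
      · have := h2.spl; rwa [huA] at this
    · rintro ⟨h1, h2, h3⟩
      refine ⟨Finset.subset_union_left, h1, fun c hc => hG c (hA hc),
        ⟨Finset.union_subset hvu (hA.trans Finset.sdiff_subset), hv, hn, hfirst, hsing, ?_, ?_, ?_⟩⟩
      · rw [huA]; exact h3
      · intro c hc; rw [huA] at hc; exact hG c (Finset.mem_sdiff.1 hc).1
      · intro c hc; rw [huA] at hc; exact (lev_lt hch _ _).1 (h2 c hc)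
  · rw [Finset.mem_powerset] at hA
    have h1 : v ⊆ u \ A := by
      intro x hx
      exact Finset.mem_sdiff.2 ⟨hvu hx, fun h => (Finset.mem_sdiff.1 (hA h)).2 hx⟩
    have h2 : (u \ A) \ v = (u \ v) \ A := by
      ext x; simp only [Finset.mem_sdiff]; tauto
    have h3 : v ∆ ((u \ v) \ A) = u \ A := by rw [← h2, sd_sub h1]
    have h4 : u \ (u \ A) = A := Finset.sdiff_sdiff_eq_self (hA.trans Finset.sdiff_subset)
    have hiff : (K.AC s0 (v ∆ ((u \ v) \ A)) A ∧
        (∀ c ∈ (u \ v) \ A, lev 𝒟 (K.head c) < lev 𝒟 (K.tail c)) ∧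
        (∀ c ∈ A, lev 𝒟 (K.tail c) = lev 𝒟 (K.head c)) ∧ K.Spl v ((u \ v) \ A)) ↔
        TT K s0 v u 𝒟 (u \ A) := by
      unfold TT
      rw [h2, h4, h3]
      constructor
      · rintro ⟨a, b, c, d⟩; exact ⟨h1, a, b, c, d⟩
      · rintro ⟨_, a, b, c, d⟩; exact ⟨a, b, c, d⟩
    by_cases hT : TT K s0 v u 𝒟 (u \ A)
    · rw [if_pos hT, if_pos (hiff.2 hT)]
    · rw [if_neg hT, if_neg (fun h => hT (hiff.1 h))]

end main


open Classical in
theorem inner (hK : K.IsSys eta) (s0 : Bool) (hGI : K.GIP s0) (hC : K.CrsP s0) (P : E)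
    (v u : Finset X) (s : E → Bool) (hs : ∀ x y, K.same v x y → s x = s y) (hP : s P = false)
    (𝒟 : Finset (Finset E)) (hv : K.Valid u 𝒟) (hn : Nrm P 𝒟)
    (hsing : ∀ x y, s x = true → (∀ D ∈ 𝒟, (x ∈ D ↔ y ∈ D)) → K.same u x y) :
    (∑ w ∈ u.powerset, if (∀ c ∈ u \ w, K.Nsep 𝒟 c ∧ s (K.tail c) = true) ∧
        K.AC s0 u (u \ w) ∧ K.Xi0 P v s w 𝒟 then (1 : ZMod 2) else 0) +
    (∑ w ∈ u.powerset, ∑ D : Finset E, if D ∉ 𝒟 ∧ B0 𝒟 ⊂ D ∧
        (∀ c ∈ u \ w, K.Nsep 𝒟 c ∧ K.tail c ∈ D ∧ K.head c ∉ D) ∧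
        K.num u + (u \ w).card = K.num w ∧ K.Xi0 P v s w (insert D 𝒟) then (1 : ZMod 2) else 0) =
    ∑ w ∈ u.powerset, if v ⊆ w ∧ K.AC s0 v (w \ v) ∧
        (∀ c ∈ w \ v, s (K.tail c) = true ∧ s (K.head c) = true) ∧
        K.Xi0 P w s u 𝒟 then (1 : ZMod 2) else 0 := by
  have hKc : K.IsCore := hK.toIsCore
  by_cases hall : v ⊆ u ∧ (∀ x, s x = false ↔ ∀ D ∈ 𝒟, x ∈ D) ∧
      (∀ c ∈ u \ v, s (K.tail c) = true ∧ s (K.head c) = true)
  · obtain ⟨hvu, hfirst, hG⟩ := hall
    have hN := G1.num_AC hK s0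
    rw [sum_rhs hv hn hsing hvu hfirst hG hGI hs]
    have h2 := sum_cond hKc hv hn hsing hvu hfirst hG
    have h3 := sum_Q hKc hv hsing hvu hG hC
    have h4 := sum_T1 (s0 := s0) hKc hv hsing hvu hG
    have h5 : (∑ w ∈ u.powerset, ∑ D : Finset E, if D ∉ 𝒟 ∧ B0 𝒟 ⊂ D ∧
        (∀ c ∈ u \ w, K.Nsep 𝒟 c ∧ K.tail c ∈ D ∧ K.head c ∉ D) ∧
        K.num u + (u \ w).card = K.num w ∧ K.Xi0 P v s w (insert D 𝒟) then (1 : ZMod 2) else 0) =
        ∑ w ∈ u.powerset, ∑ D : Finset E,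
          if Cond K P v u s 𝒟 w D then (1 : ZMod 2) else 0 :=
      Finset.sum_congr rfl fun w _ => Finset.sum_congr rfl fun D _ => if_congr Iff.rfl rfl rfl
    rw [h5, h2, h3, ← h4, ← Finset.sum_add_distrib]
    refine Finset.sum_congr rfl fun w hw => ?_
    rw [Finset.mem_powerset] at hw
    rw [if_congr (first_iff hKc hv hn hsing hvu hfirst hG hN hw) rfl rfl]
    by_cases h6 : TT K s0 v u 𝒟 w <;> by_cases h7 : (u \ w).card = 1 <;> simp [h6, h7]
  · have key : ∀ (w w' : Finset X), w ⊆ u → w' ⊆ w → v ⊆ w' → (∀ x, s x = false ↔ ∀ D ∈ 𝒟, x ∈ D) →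
        (∀ c ∈ u \ w, s (K.tail c) = true ∧ s (K.head c) = true) →
        (∀ c ∈ w \ v, s (K.tail c) = true ∧ s (K.head c) = true) → False := by
      intro w w' h1 h2 h3 h4 h5 h6
      refine hall ⟨h3.trans (h2.trans h1), h4, fun c hc => ?_⟩
      by_cases h : c ∈ w
      · exact h6 c (Finset.mem_sdiff.2 ⟨h, (Finset.mem_sdiff.1 hc).2⟩)
      · exact h5 c (Finset.mem_sdiff.2 ⟨(Finset.mem_sdiff.1 hc).1, h⟩)
    rw [Finset.sum_eq_zero, Finset.sum_eq_zero, Finset.sum_eq_zero, add_zero]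
    · intro w hw
      rw [Finset.mem_powerset] at hw
      rw [if_neg]
      rintro ⟨h1, _, h2, h3⟩
      exact key w v hw h1 subset_rfl h3.first h3.lab h2
    · intro w hw
      rw [Finset.mem_powerset] at hw
      refine Finset.sum_eq_zero fun D _ => ?_
      rw [if_neg]
      rintro ⟨_, h1, h2, _, h3⟩
      have hf : ∀ x, s x = false ↔ ∀ D ∈ 𝒟, x ∈ D := by
        intro x
        rw [h3.first x]
        constructor
        · intro h D' hD'; exact h D' (Finset.mem_insert_of_mem hD')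
        · intro h D' hD'
          rcases Finset.mem_insert.1 hD' with rfl | hD'
          · exact h1.1 (mem_B0.2 h)
          · exact h D' hD'
      refine key w v hw h3.sub subset_rfl hf (fun c hc => ?_) h3.lab
      obtain ⟨h4, h5, h6⟩ := h2 c hc
      have h7 : s (K.head c) = true := by
        by_contra h
        have h8 : s (K.head c) = false := by simpa using h
        exact h6 (h1.1 (mem_B0.2 ((hf _).1 h8)))
      refine ⟨?_, h7⟩
      by_contra h
      have h8 : s (K.tail c) = false := by simpa using h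
      have h9 : s (K.head c) = false := (hf _).2 fun D' hD' => (h4 D' hD').1 ((hf _).1 h8 D' hD')
      rw [h7] at h9; exact absurd h9 (by decide)
    · intro w hw
      rw [Finset.mem_powerset] at hw
      rw [if_neg]
      rintro ⟨h1, _, h3⟩
      have hf := h3.first
      refine key w v hw h3.sub subset_rfl hf (fun c hc => ?_) h3.lab
      obtain ⟨h4, h5⟩ := h1 c hc
      refine ⟨h5, ?_⟩
      by_contra h
      have h8 : s (K.head c) = false := by simpa using h
      have h9 : s (K.tail c) = false := (hf _).2 fun D' hD' => (h4 D' hD').2 ((hf _).1 h8 D' hD')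
      rw [h5] at h9; exact absurd h9 (by decide)

end C1s
end Pool.Agent.helper20.Sz

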