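import Pool.Agent.helper20.Sz.B1

/-! Module SZ-C1s, part A: auxiliary lemmas. -/

open scoped symmDiff

namespace Pool.Agent.helper20.Sz
namespace C1s

section basic
variable {X E : Type} [DecidableEq X] [Finite E] {K : Cube X E}

theorem sd_erase {A : Finset X} {c : X} (w : Finset X) (hc : c ∈ A) :
    w ∆ A.erase c = (w ∆ A) ∆ {c} := by
  have h := B1.sd_insert' w (A.erase c) (Finset.notMem_erase c A)
  rw [Finset.insert_erase hc] at h
  rw [h, B1.sd_cancel]

theorem sd_pair (w : Finset X) {l r : X} (hlr : l ≠ r) :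
    w ∆ {l, r} = (w ∆ {r}) ∆ {l} := by
  rw [B1.sd_insert' w {r} (by simpa using hlr)]

theorem erase_sd {u : Finset X} {e : X} (he : e ∈ u) : u.erase e = u ∆ {e} := by
  ext x
  simp only [Finset.mem_erase, Finset.mem_symmDiff, Finset.mem_singleton]
  constructor
  · rintro ⟨h1, h2⟩; exact Or.inl ⟨h2, h1⟩
  · rintro (⟨h1, h2⟩ | ⟨h1, h2⟩)
    · exact ⟨h2, h1⟩
    · subst h1; exact absurd he h2

/-- `b` and `c` join the same two circles at `w` -/
theorem join_same (hK : K.IsCore) {w : Finset X} {b c : X} (hc : ¬ K.Loop w c)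
    (hb : ¬ K.Loop w b) (h : K.Loop (w ∆ {c}) b) (x y : E) :
    K.same (w ∆ {c}) x y ↔ K.same (w ∆ {b}) x y := by
  have hj := B1.join_of_loop hK hc hb h
  rw [hK.merge w c hc x y, hK.merge w b hb x y]
  have tr := @B1.trans X E _ K hK w
  have sy := @B1.symm X E _ K hK w
  rcases hj with ⟨h1, h2⟩ | ⟨h1, h2⟩
  · constructor
    · rintro (h3 | ⟨h3, h4⟩ | ⟨h3, h4⟩)
      · exact Or.inl h3
      · exact Or.inr (Or.inl ⟨tr h3 (sy h1), tr h2 h4⟩)
      · exact Or.inr (Or.inr ⟨tr h3 (sy h2), tr h1 h4⟩)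
    · rintro (h3 | ⟨h3, h4⟩ | ⟨h3, h4⟩)
      · exact Or.inl h3
      · exact Or.inr (Or.inl ⟨tr h3 h1, tr (sy h2) h4⟩)
      · exact Or.inr (Or.inr ⟨tr h3 h2, tr (sy h1) h4⟩)
  · constructor
    · rintro (h3 | ⟨h3, h4⟩ | ⟨h3, h4⟩)
      · exact Or.inl h3
      · exact Or.inr (Or.inr ⟨tr h3 (sy h2), tr h1 h4⟩)
      · exact Or.inr (Or.inl ⟨tr h3 (sy h1), tr h2 h4⟩)
    · rintro (h3 | ⟨h3, h4⟩ | ⟨h3, h4⟩)
      · exact Or.inl h3
      · exact Or.inr (Or.inr ⟨tr h3 h1, tr (sy h2) h4⟩)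
      · exact Or.inr (Or.inl ⟨tr h3 h2, tr (sy h1) h4⟩)

/-- surgery along a crossed pair does not change the circles -/
theorem same_crs (hK : K.IsCore) {s0 : Bool} {w : Finset X} {l r : X} (hlr : l ≠ r)
    (h : K.Crs s0 w l r) (x y : E) : K.same (w ∆ {l, r}) x y ↔ K.same w x y := by
  obtain ⟨h1, h2, h3, _⟩ := h
  have h4 : ¬ K.Loop (w ∆ {r}) r := hK.split w r h2
  have h5 : K.Loop ((w ∆ {r}) ∆ {r}) l := by rw [B1.sd_cancel]; exact h1
  have h6 := join_same hK h4 h3 h5 x y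
  rw [B1.sd_cancel] at h6
  rw [sd_pair w hlr]
  exact h6.symm

theorem crs_flip (hK : K.IsCore) {s0 : Bool} {w : Finset X} {l r : X} (hlr : l ≠ r)
    (h : K.Crs s0 w l r) : K.Crs s0 (w ∆ {l, r}) r l := by
  have hs := same_crs hK hlr h
  obtain ⟨h1, h2, h3, h4⟩ := h
  have e1 : (w ∆ {l, r}) ∆ {l} = w ∆ {r} := by
    rw [sd_pair w hlr, B1.sd_cancel]
  refine ⟨(hs _ _).2 h2, (hs _ _).2 h1, ?_, ?_⟩
  · rw [e1]; exact hK.split w r h2
  · rw [e1, ← h4]
    exact ⟨fun h => B1.symm hK h, fun h => B1.symm hK h⟩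

theorem bun_pair {s0 : Bool} {w : Finset X} {l r : X} (hlr : l ≠ r)
    (h : K.Crs s0 w l r) : K.Bun s0 w {l, r} := by
  refine ⟨{l}, {r}, rfl, by simpa using hlr, by simp, by simp, ?_⟩
  intro e he f hf
  rw [Finset.mem_singleton] at he hf
  subst he; subst hf
  exact h

theorem erase_contra (hK : K.IsCore) {s0 : Bool} (hN : K.NumP s0) {w A : Finset X}
    (hH : Hom w A) (hA : K.AC s0 w A) {c : X} (hc : c ∈ A) (hA' : K.AC s0 w (A.erase c))
    (hl : K.Loop (w ∆ A) c) : False := by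
  have h1 := hN w A hH hA
  have h2 := hN w (A.erase c) (fun a ha b hb => hH a (Finset.mem_of_mem_erase ha) b
    (Finset.mem_of_mem_erase hb)) hA'
  have h3 := B1.num_flip_loop hK hl
  rw [sd_erase w hc, h3, Finset.card_erase_of_mem hc] at h2
  have : 0 < A.card := Finset.card_pos.2 ⟨c, hc⟩
  omega

/-- a set of type A or C all of whose arcs are loops after the surgery -/
theorem two (hK : K.IsCore) {s0 : Bool} (hN : K.NumP s0) {w A : Finset X}
    (hH : Hom w A) (hA : K.AC s0 w A) (hl : ∀ c ∈ A, K.Loop (w ∆ A) c) :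
    (∃ e, A = {e} ∧ ¬ K.Loop w e) ∨ ∃ l r, l ≠ r ∧ A = {l, r} ∧ K.Crs s0 w l r := by
  rcases hA with hP | hB
  · left
    obtain ⟨⟨c, hc⟩, a, b, hab, hg⟩ := id hP
    have hcn : ¬ K.Loop w c := fun h => hab (B1.trans hK (B1.symm hK (hg c hc).1)
      (B1.trans hK h (hg c hc).2))
    rcases Finset.eq_empty_or_nonempty (A.erase c) with h0 | hne
    · refine ⟨c, ?_, hcn⟩
      rw [← Finset.insert_erase hc, h0]; rfl
    · exfalso
      refine erase_contra hK hN hH (Or.inl hP) hc (Or.inl ⟨hne, a, b, hab, ?_⟩) (hl c hc)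
      exact fun g hg' => hg g (Finset.mem_of_mem_erase hg')
  · right
    obtain ⟨A1, B1', hU, hd, ⟨l, hl1⟩, ⟨r, hr1⟩, hcr⟩ := id hB
    have hlA : l ∈ A := hU ▸ Finset.mem_union_left _ hl1
    have hrA : r ∈ A := hU ▸ Finset.mem_union_right _ hr1
    have hne : l ≠ r := fun h => (Finset.disjoint_left.1 hd hl1) (h ▸ hr1)
    have hA1 : A1 = {l} := by
      rcases Finset.eq_empty_or_nonempty (A1.erase l) with h0 | hne'
      · rw [← Finset.insert_erase hl1, h0]; rfl
      · exfalso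
        refine erase_contra hK hN hH (Or.inr hB) hlA (Or.inr ⟨A1.erase l, B1', ?_, ?_, hne',
          ⟨r, hr1⟩, ?_⟩) (hl l hlA)
        · rw [← hU, Finset.erase_union_distrib,
            Finset.erase_eq_of_notMem (Finset.disjoint_left.1 hd hl1)]
        · exact Disjoint.mono_left (Finset.erase_subset _ _) hd
        · exact fun e he f hf => hcr e (Finset.mem_of_mem_erase he) f hf
    have hB1 : B1' = {r} := by
      rcases Finset.eq_empty_or_nonempty (B1'.erase r) with h0 | hne'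
      · rw [← Finset.insert_erase hr1, h0]; rfl
      · exfalso
        refine erase_contra hK hN hH (Or.inr hB) hrA (Or.inr ⟨A1, B1'.erase r, ?_, ?_, ⟨l, hl1⟩,
          hne', ?_⟩) (hl r hrA)
        · rw [← hU, Finset.erase_union_distrib,
            Finset.erase_eq_of_notMem (Finset.disjoint_right.1 hd hr1)]
        · exact Disjoint.mono_right (Finset.erase_subset _ _) hd
        · exact fun e he f hf => hcr e he f (Finset.mem_of_mem_erase hf)
    refine ⟨l, r, hne, ?_, hcr l hl1 r hr1⟩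
    rw [← hU, hA1, hB1]; rfl

end basic

section reindex
variable {X : Type} [DecidableEq X]

theorem sum_up {v u : Finset X} (hvu : v ⊆ u) (p : Finset X → Prop) [DecidablePred p]
    (hp : ∀ w, p w → v ⊆ w) :
    (∑ w ∈ u.powerset, if p w then (1 : ZMod 2) else 0) =
    ∑ A ∈ (u \ v).powerset, if p (v ∪ A) then (1 : ZMod 2) else 0 := by
  rw [← Finset.sum_filter, ← Finset.sum_filter]
  refine Finset.sum_nbij' (fun w => w \ v) (fun A => v ∪ A) ?_ ?_ ?_ ?_ (fun _ _ => rfl)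
  · intro w hw
    simp only [Finset.mem_filter, Finset.mem_powerset] at hw ⊢
    refine ⟨Finset.sdiff_subset_sdiff hw.1 subset_rfl, ?_⟩
    rw [Finset.union_sdiff_of_subset (hp w hw.2)]; exact hw.2
  · intro A hA
    simp only [Finset.mem_filter, Finset.mem_powerset] at hA ⊢
    exact ⟨Finset.union_subset hvu (hA.1.trans Finset.sdiff_subset), hA.2⟩
  · intro w hw
    simp only [Finset.mem_filter, Finset.mem_powerset] at hw
    exact Finset.union_sdiff_of_subset (hp w hw.2)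
  · intro A hA
    simp only [Finset.mem_filter, Finset.mem_powerset] at hA
    ext x
    simp only [Finset.mem_sdiff, Finset.mem_union]
    constructor
    · rintro ⟨h1 | h1, h2⟩
      · exact absurd h1 h2
      · exact h1
    · intro h; exact ⟨Or.inr h, (Finset.mem_sdiff.1 (hA.1 h)).2⟩

theorem sum_down {v u : Finset X} (_hvu : v ⊆ u) (p : Finset X → Prop) [DecidablePred p]
    (hp : ∀ w, p w → v ⊆ w) :
    (∑ w ∈ u.powerset, if p w then (1 : ZMod 2) else 0) =
    ∑ A ∈ (u \ v).powerset, if p (u \ A) then (1 : ZMod 2) else 0 := by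
  rw [← Finset.sum_filter, ← Finset.sum_filter]
  refine Finset.sum_nbij' (fun w => u \ w) (fun A => u \ A) ?_ ?_ ?_ ?_ (fun _ _ => rfl)
  · intro w hw
    simp only [Finset.mem_filter, Finset.mem_powerset] at hw ⊢
    refine ⟨Finset.sdiff_subset_sdiff subset_rfl (hp w hw.2), ?_⟩
    rw [Finset.sdiff_sdiff_eq_self hw.1]; exact hw.2
  · intro A hA
    simp only [Finset.mem_filter, Finset.mem_powerset] at hA ⊢
    exact ⟨Finset.sdiff_subset, hA.2⟩
  · intro w hw
    simp only [Finset.mem_filter, Finset.mem_powerset] at hw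
    exact Finset.sdiff_sdiff_eq_self hw.1
  · intro A hA
    simp only [Finset.mem_filter, Finset.mem_powerset] at hA
    exact Finset.sdiff_sdiff_eq_self (hA.1.trans Finset.sdiff_subset)

/-- a set with a fixed point free matching has even cardinality -/
theorem parity (R : Finset X) (rel : X → X → Prop)
    (hsym : ∀ e ∈ R, ∀ g ∈ R, rel e g → rel g e)
    (hex : ∀ e ∈ R, ∃ g ∈ R, g ≠ e ∧ rel e g)
    (huniq : ∀ e ∈ R, ∀ g ∈ R, ∀ g' ∈ R, g ≠ e → g' ≠ e → rel e g → rel e g' → g = g') :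
    (∑ _e ∈ R, (1 : ZMod 2)) = 0 := by
  classical
  choose! p hp using hex
  refine Finset.sum_involution (fun a _ => p a) ?_ ?_ ?_ ?_
  · intro a ha; decide
  · intro a ha _; exact (hp a ha).2.1
  · intro a ha; exact (hp a ha).1
  · intro a ha
    obtain ⟨h1, h2, h3⟩ := hp a ha
    obtain ⟨h4, h5, h6⟩ := hp (p a) h1
    exact huniq (p a) h1 _ h4 a ha h5 h2.symm h6 (hsym a ha _ h1 h3)

end reindex

/-! ### the level function of a word -/
section level
variable {E : Type} [Fintype E] [DecidableEq E]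

/-- number of members of `𝒟` which do not contain `x` -/
def lev (𝒟 : Finset (Finset E)) (x : E) : ℕ := (𝒟.filter fun D => x ∉ D).card

theorem lev_lt {𝒟 : Finset (Finset E)} (hch : ∀ D ∈ 𝒟, ∀ D' ∈ 𝒟, D ⊆ D' ∨ D' ⊆ D) (x y : E) :
    lev 𝒟 x < lev 𝒟 y ↔ ∃ D ∈ 𝒟, x ∈ D ∧ y ∉ D := by
  constructor
  · intro h
    by_contra hno
    push Not at hno
    refine absurd h (not_lt.2 (Finset.card_le_card ?_))
    intro D hD
    simp only [Finset.mem_filter] at hD ⊢
    exact ⟨hD.1, fun hx => hD.2 (hno D hD.1 hx)⟩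
  · rintro ⟨D, hD, hx, hy⟩
    refine Finset.card_lt_card (Finset.ssubset_iff_of_subset ?_ |>.2 ⟨D, ?_, ?_⟩)
    · intro D' hD'
      simp only [Finset.mem_filter] at hD' ⊢
      refine ⟨hD'.1, fun hy' => ?_⟩
      rcases hch D hD D' hD'.1 with h | h
      · exact hD'.2 (h hx)
      · exact hy (h hy')
    · simp only [Finset.mem_filter]; exact ⟨hD, hy⟩
    · simp only [Finset.mem_filter, not_and, not_not]; exact fun _ => hx

theorem lev_eq {𝒟 : Finset (Finset E)} (hch : ∀ D ∈ 𝒟, ∀ D' ∈ 𝒟, D ⊆ D' ∨ D' ⊆ D) (x y : E) :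
    lev 𝒟 x = lev 𝒟 y ↔ ∀ D ∈ 𝒟, (x ∈ D ↔ y ∈ D) := by
  constructor
  · intro h D hD
    constructor
    · intro hx
      by_contra hy
      have := (lev_lt hch x y).2 ⟨D, hD, hx, hy⟩
      omega
    · intro hy
      by_contra hx
      have := (lev_lt hch y x).2 ⟨D, hD, hy, hx⟩
      omega
  · intro h
    unfold lev
    congr 1
    ext D
    simp only [Finset.mem_filter]
    constructor
    · rintro ⟨h1, h2⟩; exact ⟨h1, fun h3 => h2 ((h D h1).2 h3)⟩
    · rintro ⟨h1, h2⟩; exact ⟨h1, fun h3 => h2 ((h D h1).1 h3)⟩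

theorem lev_zero {𝒟 : Finset (Finset E)} (x : E) : lev 𝒟 x = 0 ↔ ∀ D ∈ 𝒟, x ∈ D := by
  unfold lev
  rw [Finset.card_eq_zero, Finset.filter_eq_empty_iff]
  simp only [not_not]

/-- a new member of a chain cuts a block -/
theorem cut {𝒟 : Finset (Finset E)} (hch : ∀ D ∈ 𝒟, ∀ D' ∈ 𝒟, D ⊆ D' ∨ D' ⊆ D) {D : Finset E}
    (hD : D ∉ 𝒟) (hne : D.Nonempty) (htop : D ≠ Finset.univ)
    (hc : ∀ D' ∈ 𝒟, D' ⊆ D ∨ D ⊆ D') : ∃ x ∈ D, ∃ y, y ∉ D ∧ lev 𝒟 x = lev 𝒟 y := by
  classical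
  have hne' : (Finset.univ \ D).Nonempty := by
    rw [Finset.sdiff_nonempty]
    intro h; exact htop (Finset.eq_univ_iff_forall.2 fun x => h (Finset.mem_univ x))
  obtain ⟨x, hx, hmax⟩ := Finset.exists_max_image D (lev 𝒟) hne
  obtain ⟨y, hy, hmin⟩ := Finset.exists_min_image (Finset.univ \ D) (lev 𝒟) hne'
  have hy' : y ∉ D := (Finset.mem_sdiff.1 hy).2
  refine ⟨x, hx, y, hy', ?_⟩
  rcases lt_trichotomy (lev 𝒟 x) (lev 𝒟 y) with h | h | h
  · exfalso
    obtain ⟨D', hD', h1, h2⟩ := (lev_lt hch x y).1 h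
    have : D' = D := by
      rcases hc D' hD' with h3 | h3
      · refine Finset.Subset.antisymm h3 fun z hz => ?_
        by_contra hz'
        have h4 := (lev_lt hch x z).2 ⟨D', hD', h1, hz'⟩
        have h5 := hmax z hz
        omega
      · refine Finset.Subset.antisymm (fun z hz => ?_) h3
        by_contra hz'
        have h4 := (lev_lt hch z y).2 ⟨D', hD', hz, h2⟩
        have h5 := hmin z (Finset.mem_sdiff.2 ⟨Finset.mem_univ _, hz'⟩)
        omega
    exact hD (this ▸ hD')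
  · exact h
  · exfalso
    obtain ⟨D', hD', h1, h2⟩ := (lev_lt hch y x).1 h
    rcases hc D' hD' with h3 | h3
    · exact hy' (h3 h1)
    · exact h2 (h3 hx)

end level

end C1s
end Pool.Agent.helper20.Sz
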